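import Pool.Agent.Lib.MP_3f4edd_co.General

namespace Pool.Agent.Results.MP_3f4edd_co.TwoColours

/-- For every `n` there is a 2-colouring of `S_n` (a permutation `π` is the word
`π 0, π 1, …`) with no monochromatic copy of `S_r` for any `r ≥ 5`. -/
theorem result (n : ℕ) :
    ∃ c : Equiv.Perm (Fin n) → Fin 2, ∀ r : ℕ, 5 ≤ r →
      ∀ x : Fin r → List (Fin n), (∀ i, x i ≠ []) →
      ∀ w : Equiv.Perm (Fin r) → Equiv.Perm (Fin n),
        (∀ σ, List.ofFn (w σ) = (List.ofFn fun i => x (σ i)).flatten) →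
        ∃ σ τ, c (w σ) ≠ c (w τ) :=
  ⟨fun π => Pool.Agent.Lib.MP_3f4edd_co.col (List.ofFn π), fun r hr x hx w hw =>
    Pool.Agent.Lib.MP_3f4edd_co.general r hr n x hx w hw⟩

end Pool.Agent.Results.MP_3f4edd_co.TwoColours
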